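import Mathlib

set_option autoImplicit false

namespace Pool.Agent.Lib.MP_716709_gt.Upper

open Finset

/-- finite probability weights -/
structure IsProb {Ω : Type*} [Fintype Ω] (p : Ω → ℝ) : Prop where
  nonneg : ∀ ω, 0 ≤ p ω
  sum_one : ∑ ω, p ω = 1

/-- the expectation -/
def Ex {Ω : Type*} [Fintype Ω] (p : Ω → ℝ) (f : Ω → ℝ) : ℝ := ∑ ω, p ω * f ω

section basic
variable {Ω : Type*} [Fintype Ω] {p : Ω → ℝ}

theorem Ex_mono (hp : IsProb p) {f g : Ω → ℝ} (h : ∀ ω, f ω ≤ g ω) : Ex p f ≤ Ex p g :=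
  sum_le_sum fun ω _ => mul_le_mul_of_nonneg_left (h ω) (hp.nonneg ω)

theorem Ex_const (hp : IsProb p) (c : ℝ) : Ex p (fun _ => c) = c := by
  unfold Ex; rw [← sum_mul, hp.sum_one, one_mul]

theorem Ex_nonneg (hp : IsProb p) {f : Ω → ℝ} (h : ∀ ω, 0 ≤ f ω) : 0 ≤ Ex p f :=
  sum_nonneg fun ω _ => mul_nonneg (hp.nonneg ω) (h ω)

theorem Ex_add (f g : Ω → ℝ) : Ex p (fun ω => f ω + g ω) = Ex p f + Ex p g := by
  unfold Ex; rw [← sum_add_distrib]; exact sum_congr rfl fun ω _ => by ring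

theorem Ex_sub (f g : Ω → ℝ) : Ex p (fun ω => f ω - g ω) = Ex p f - Ex p g := by
  unfold Ex; rw [← sum_sub_distrib]; exact sum_congr rfl fun ω _ => by ring

theorem Ex_mul_left (c : ℝ) (f : Ω → ℝ) : Ex p (fun ω => c * f ω) = c * Ex p f := by
  unfold Ex; rw [mul_sum]; exact sum_congr rfl fun ω _ => by ring

theorem Ex_sum {ι : Type*} (s : Finset ι) (f : ι → Ω → ℝ) :
    Ex p (fun ω => ∑ i ∈ s, f i ω) = ∑ i ∈ s, Ex p (f i) := by
  unfold Ex
  rw [sum_comm]
  exact sum_congr rfl fun ω _ => by rw [mul_sum]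

theorem Ex_le_const (hp : IsProb p) {f : Ω → ℝ} {c : ℝ} (h : ∀ ω, f ω ≤ c) : Ex p f ≤ c := by
  rw [← Ex_const hp c]; exact Ex_mono hp h

end basic

section prod
variable {ι Ω : Type*} [Fintype ι] [DecidableEq ι] [Fintype Ω]

/-- product weights -/
def prodW (w : ι → Ω → ℝ) : (ι → Ω) → ℝ := fun ω => ∏ i, w i (ω i)

theorem Ex_prodW_prod (w g : ι → Ω → ℝ) :
    Ex (prodW w) (fun ω => ∏ i, g i (ω i)) = ∏ i, Ex (w i) (g i) := by
  unfold Ex prodW
  rw [Finset.prod_univ_sum]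
  simp only [Fintype.piFinset_univ]
  refine sum_congr rfl fun ω _ => ?_
  rw [← prod_mul_distrib]

theorem isProb_prodW {w : ι → Ω → ℝ} (hw : ∀ i, IsProb (w i)) : IsProb (prodW w) where
  nonneg ω := prod_nonneg fun i _ => (hw i).nonneg _
  sum_one := by
    have h := Ex_prodW_prod w (fun _ _ => (1 : ℝ))
    have h1 : ∀ i, Ex (w i) (fun _ => (1 : ℝ)) = 1 := fun i => Ex_const (hw i) 1
    simp only [prod_const_one, h1] at h
    rw [← h]
    unfold Ex
    simp

theorem Ex_prodW_one {w : ι → Ω → ℝ} (hw : ∀ i, IsProb (w i)) (j : ι) (f : Ω → ℝ) :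
    Ex (prodW w) (fun ω => f (ω j)) = Ex (w j) f := by
  have h := Ex_prodW_prod w (fun i => if i = j then f else fun _ => 1)
  have h1 : ∀ ω : ι → Ω, (∏ i, (if i = j then f else fun _ => 1) (ω i)) = f (ω j) := by
    intro ω
    rw [prod_eq_single j]
    · simp
    · intro i _ hi; simp [hi]
    · intro hj; exact absurd (mem_univ j) hj
  have h2 : (∏ i, Ex (w i) (if i = j then f else fun _ => 1)) = Ex (w j) f := by
    rw [prod_eq_single j]
    · simp
    · intro i _ hi; simp only [hi, if_false]; exact Ex_const (hw i) 1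
    · intro hj; exact absurd (mem_univ j) hj
  rw [← h2, ← h]
  congr 1
  funext ω
  exact (h1 ω).symm

theorem Ex_prodW_two {w : ι → Ω → ℝ} (hw : ∀ i, IsProb (w i)) {j l : ι} (hjl : j ≠ l)
    (f g : Ω → ℝ) :
    Ex (prodW w) (fun ω => f (ω j) * g (ω l)) = Ex (w j) f * Ex (w l) g := by
  have h := Ex_prodW_prod w (fun i => if i = j then f else if i = l then g else fun _ => 1)
  have h1 : ∀ ω : ι → Ω, (∏ i, (if i = j then f else if i = l then g else fun _ => 1) (ω i)) =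
      f (ω j) * g (ω l) := by
    intro ω
    rw [prod_eq_mul j l hjl]
    · simp [hjl.symm]
    · intro i _ hi; simp [hi.1, hi.2]
    · intro hj; exact absurd (mem_univ j) hj
    · intro hj; exact absurd (mem_univ l) hj
  have h2 : (∏ i, Ex (w i) (if i = j then f else if i = l then g else fun _ => 1)) =
      Ex (w j) f * Ex (w l) g := by
    rw [prod_eq_mul j l hjl]
    · simp [hjl.symm]
    · intro i _ hi; simp only [hi.1, hi.2, if_false]; exact Ex_const (hw i) 1
    · intro hj; exact absurd (mem_univ j) hj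
    · intro hj; exact absurd (mem_univ l) hj
  rw [← h2, ← h]
  congr 1
  funext ω
  exact (h1 ω).symm

end prod

theorem exp_neg_quarter {x : ℝ} (h0 : 0 ≤ x) (h1 : x ≤ 1) :
    Real.exp (-(x / 4)) ≤ 1 - 3 / 16 * x := by
  have h := Real.abs_exp_sub_one_sub_id_le (x := -(x / 4)) (by rw [abs_neg, abs_of_nonneg] <;> linarith)
  have h2 := (abs_le.1 h).2
  nlinarith

theorem exp_quarter {x : ℝ} (h0 : 0 ≤ x) (h1 : x ≤ 1) :
    Real.exp (x / 4) ≤ 1 + 5 / 16 * x := by
  have h := Real.abs_exp_sub_one_sub_id_le (x := x / 4) (by rw [abs_of_nonneg] <;> linarith)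
  have h2 := (abs_le.1 h).2
  nlinarith

/-- Sampling coordinates. -/
theorem sampling {Ω ι : Type*} [Fintype Ω] [Fintype ι] {p : Ω → ℝ} (hp : IsProb p)
    (f : ι → Ω → ℝ) (h0 : ∀ j ω, 0 ≤ f j ω) (h1 : ∀ j ω, f j ω ≤ 1) (k : ℕ) (θ : ℝ)
    (hθ : ∀ j, θ ≤ Ex p (f j))
    (hk : 2 * (Fintype.card ι : ℝ) * Real.exp (-(k * θ / 16)) < 1) :
    ∃ ω : Fin k → Ω, ∀ j, k * Ex p (f j) / 2 ≤ ∑ l, f j (ω l) ∧
      ∑ l, f j (ω l) ≤ 2 * k * Ex p (f j) := by
  classical
  by_contra hcon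
  push Not at hcon
  set w : Fin k → Ω → ℝ := fun _ => p with hw
  have hwp : ∀ i, IsProb (w i) := fun _ => hp
  have hP : IsProb (prodW w) := isProb_prodW hwp
  set Φ : (Fin k → Ω) → ℝ := fun ω => ∑ j, (Real.exp (k * Ex p (f j) / 8) *
      (∏ l, Real.exp (-(f j (ω l) / 4))) +
      Real.exp (-(k * Ex p (f j) / 2)) * ∏ l, Real.exp (f j (ω l) / 4)) with hΦ
  have hone : ∀ ω, 1 ≤ Φ ω := by
    intro ω
    obtain ⟨j, hj⟩ := hcon ω
    have hnn : ∀ i ∈ (univ : Finset ι), 0 ≤ (Real.exp (k * Ex p (f i) / 8) *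
      (∏ l, Real.exp (-(f i (ω l) / 4))) +
      Real.exp (-(k * Ex p (f i) / 2)) * ∏ l, Real.exp (f i (ω l) / 4)) := fun i _ => by
      positivity
    refine le_trans ?_ (single_le_sum hnn (mem_univ j))
    have e1 : Real.exp (k * Ex p (f j) / 8) * (∏ l, Real.exp (-(f j (ω l) / 4))) =
        Real.exp (k * Ex p (f j) / 8 - (∑ l, f j (ω l)) / 4) := by
      rw [← Real.exp_sum, ← Real.exp_add]
      congr 1
      rw [sum_neg_distrib, ← sum_div]; ring
    have e2 : Real.exp (-(k * Ex p (f j) / 2)) * (∏ l, Real.exp (f j (ω l) / 4)) =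
        Real.exp ((∑ l, f j (ω l)) / 4 - k * Ex p (f j) / 2) := by
      rw [← Real.exp_sum, ← Real.exp_add]
      congr 1
      rw [← sum_div]; ring
    rw [e1, e2]
    by_cases hc : k * Ex p (f j) / 2 ≤ ∑ l, f j (ω l)
    · have h3 := hj hc
      have : (1 : ℝ) ≤ Real.exp ((∑ l, f j (ω l)) / 4 - k * Ex p (f j) / 2) :=
        Real.one_le_exp (by linarith)
      have h4 := Real.exp_pos (k * Ex p (f j) / 8 - (∑ l, f j (ω l)) / 4)
      linarith
    · push Not at hc
      have : (1 : ℝ) ≤ Real.exp (k * Ex p (f j) / 8 - (∑ l, f j (ω l)) / 4) :=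
        Real.one_le_exp (by linarith)
      have h4 := Real.exp_pos ((∑ l, f j (ω l)) / 4 - k * Ex p (f j) / 2)
      linarith
  have hE1 : 1 ≤ Ex (prodW w) Φ := by
    rw [← Ex_const hP 1]; exact Ex_mono hP hone
  have hE2 : Ex (prodW w) Φ = ∑ j, (Real.exp (k * Ex p (f j) / 8) *
      (Ex p (fun ω => Real.exp (-(f j ω / 4)))) ^ k +
      Real.exp (-(k * Ex p (f j) / 2)) * (Ex p (fun ω => Real.exp (f j ω / 4))) ^ k) := by
    rw [hΦ, Ex_sum]
    refine sum_congr rfl fun j _ => ?_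
    rw [Ex_add, Ex_mul_left, Ex_mul_left]
    have a1 := Ex_prodW_prod w (fun _ ω => Real.exp (-(f j ω / 4)))
    have a2 := Ex_prodW_prod w (fun _ ω => Real.exp (f j ω / 4))
    rw [a1, a2]
    simp [hw]
  have hE3 : ∀ j, Real.exp (k * Ex p (f j) / 8) *
      (Ex p (fun ω => Real.exp (-(f j ω / 4)))) ^ k +
      Real.exp (-(k * Ex p (f j) / 2)) * (Ex p (fun ω => Real.exp (f j ω / 4))) ^ k ≤
      2 * Real.exp (-(k * θ / 16)) := by
    intro j
    have hEj0 : 0 ≤ Ex p (f j) := Ex_nonneg hp (h0 j)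
    have b1 : Ex p (fun ω => Real.exp (-(f j ω / 4))) ≤ Real.exp (-(3 / 16 * Ex p (f j))) := by
      calc Ex p (fun ω => Real.exp (-(f j ω / 4)))
          ≤ Ex p (fun ω => 1 - 3 / 16 * f j ω) :=
            Ex_mono hp fun ω => exp_neg_quarter (h0 j ω) (h1 j ω)
        _ = 1 - 3 / 16 * Ex p (f j) := by
            rw [Ex_sub (fun _ => (1 : ℝ)), Ex_const hp, Ex_mul_left]
        _ ≤ _ := by
            have := Real.add_one_le_exp (-(3 / 16 * Ex p (f j)))
            linarith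
    have b2 : Ex p (fun ω => Real.exp (f j ω / 4)) ≤ Real.exp (5 / 16 * Ex p (f j)) := by
      calc Ex p (fun ω => Real.exp (f j ω / 4))
          ≤ Ex p (fun ω => 1 + 5 / 16 * f j ω) :=
            Ex_mono hp fun ω => exp_quarter (h0 j ω) (h1 j ω)
        _ = 1 + 5 / 16 * Ex p (f j) := by
            rw [Ex_add (fun _ => (1 : ℝ)), Ex_const hp, Ex_mul_left]
        _ ≤ _ := by
            have := Real.add_one_le_exp (5 / 16 * Ex p (f j))
            linarith
    have c1 : Real.exp (k * Ex p (f j) / 8) *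
        (Ex p (fun ω => Real.exp (-(f j ω / 4)))) ^ k ≤ Real.exp (-(k * θ / 16)) := by
      have d1 : (Ex p (fun ω => Real.exp (-(f j ω / 4)))) ^ k ≤
          (Real.exp (-(3 / 16 * Ex p (f j)))) ^ k :=
        pow_le_pow_left₀ (Ex_nonneg hp fun ω => (Real.exp_pos _).le) b1 k
      calc _ ≤ Real.exp (k * Ex p (f j) / 8) * (Real.exp (-(3 / 16 * Ex p (f j)))) ^ k :=
            mul_le_mul_of_nonneg_left d1 (Real.exp_pos _).le
        _ = Real.exp (-(k * Ex p (f j) / 16)) := by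
            rw [← Real.exp_nat_mul, ← Real.exp_add]; congr 1; ring
        _ ≤ _ := by
            apply Real.exp_le_exp.2
            have : (k : ℝ) * θ ≤ k * Ex p (f j) :=
              mul_le_mul_of_nonneg_left (hθ j) (Nat.cast_nonneg k)
            linarith
    have c2 : Real.exp (-(k * Ex p (f j) / 2)) *
        (Ex p (fun ω => Real.exp (f j ω / 4))) ^ k ≤ Real.exp (-(k * θ / 16)) := by
      have d1 : (Ex p (fun ω => Real.exp (f j ω / 4))) ^ k ≤
          (Real.exp (5 / 16 * Ex p (f j))) ^ k :=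
        pow_le_pow_left₀ (Ex_nonneg hp fun ω => (Real.exp_pos _).le) b2 k
      calc _ ≤ Real.exp (-(k * Ex p (f j) / 2)) * (Real.exp (5 / 16 * Ex p (f j))) ^ k :=
            mul_le_mul_of_nonneg_left d1 (Real.exp_pos _).le
        _ = Real.exp (-(3 * (k * Ex p (f j)) / 16)) := by
            rw [← Real.exp_nat_mul, ← Real.exp_add]; congr 1; ring
        _ ≤ _ := by
            apply Real.exp_le_exp.2
            have h5 : (k : ℝ) * θ ≤ k * Ex p (f j) :=
              mul_le_mul_of_nonneg_left (hθ j) (Nat.cast_nonneg k)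
            have h6 : 0 ≤ (k : ℝ) * Ex p (f j) := mul_nonneg (Nat.cast_nonneg k) hEj0
            linarith
    linarith
  have hE4 : Ex (prodW w) Φ ≤ 2 * (Fintype.card ι : ℝ) * Real.exp (-(k * θ / 16)) := by
    rw [hE2]
    refine (sum_le_sum fun j _ => hE3 j).trans ?_
    rw [sum_const, card_univ, nsmul_eq_mul]
    linarith
  linarith

end Pool.Agent.Lib.MP_716709_gt.Upper
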