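import Pool.Agent.Lib.MP_716709_gt.Points
import Pool.Agent.Lib.MP_716709_gt.Upper.Sampling

set_option autoImplicit false

namespace Pool.Agent.Lib.MP_716709_gt.Upper

open Finset

theorem embeds_of_random {M : Finset L1} {Ω : Type} [Fintype Ω] {p : Ω → ℝ} (hp : IsProb p)
    (ψ : Ω → M → ℝ) {a b B₁ : ℝ} (ha : 0 < a) (hB : 0 < B₁)
    (h1 : ∀ (x y : M) ω, |ψ ω x - ψ ω y| ≤ B₁ * dist x y)
    (h2 : ∀ x y : M, a * dist x y ≤ Ex p (fun ω => |ψ ω x - ψ ω y|))
    (h3 : ∀ x y : M, Ex p (fun ω => |ψ ω x - ψ ω y|) ≤ b * dist x y)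
    {k : ℕ} (hk0 : 0 < k)
    (hk : 2 * (M.card : ℝ) ^ 2 * Real.exp (-(k * (a / B₁) / 16)) < 1) :
    Embeds M (4 * b / a) k := by
  classical
  set f : {q : M × M // q.1 ≠ q.2} → Ω → ℝ := fun q ω =>
    |ψ ω q.1.1 - ψ ω q.1.2| / (B₁ * dist q.1.1 q.1.2) with hf
  have hd : ∀ q : {q : M × M // q.1 ≠ q.2}, 0 < dist q.1.1 q.1.2 := fun q => dist_pos.2 q.2
  have hBd : ∀ q : {q : M × M // q.1 ≠ q.2}, 0 < B₁ * dist q.1.1 q.1.2 := fun q =>
    mul_pos hB (hd q)
  have hf0 : ∀ q ω, 0 ≤ f q ω := fun q ω => div_nonneg (abs_nonneg _) (hBd q).le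
  have hf1 : ∀ q ω, f q ω ≤ 1 := fun q ω => (div_le_one (hBd q)).2 (h1 _ _ ω)
  have hEf : ∀ q, Ex p (f q) =
      Ex p (fun ω => |ψ ω q.1.1 - ψ ω q.1.2|) / (B₁ * dist q.1.1 q.1.2) := by
    intro q
    have : f q = fun ω => (1 / (B₁ * dist q.1.1 q.1.2)) * |ψ ω q.1.1 - ψ ω q.1.2| := by
      funext ω; rw [hf]; simp only; ring
    rw [this, Ex_mul_left]; ring
  have hθ : ∀ q, a / B₁ ≤ Ex p (f q) := by
    intro q
    rw [hEf q, div_le_div_iff₀ hB (hBd q)]
    have := mul_le_mul_of_nonneg_left (h2 q.1.1 q.1.2) hB.le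
    linarith
  have hcard : 2 * (Fintype.card {q : M × M // q.1 ≠ q.2} : ℝ) *
      Real.exp (-(k * (a / B₁) / 16)) < 1 := by
    refine lt_of_le_of_lt ?_ hk
    apply mul_le_mul_of_nonneg_right _ (Real.exp_pos _).le
    apply mul_le_mul_of_nonneg_left _ (by norm_num)
    have h4 : Fintype.card {q : M × M // q.1 ≠ q.2} ≤ M.card ^ 2 := by
      refine (Fintype.card_subtype_le _).trans ?_
      rw [Fintype.card_prod, Fintype.card_coe, sq]
    exact_mod_cast h4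
  obtain ⟨ω, hω⟩ := sampling hp f hf0 hf1 k (a / B₁) hθ hcard
  have hkR : (0 : ℝ) < k := by exact_mod_cast hk0
  refine ⟨fun x => WithLp.toLp 1 (fun l => ψ (ω l) x), k * a / 2, by positivity, ?_⟩
  intro x y
  rw [PiLp.dist_eq_of_L1]
  have hsum : ∑ i : Fin k, dist ((WithLp.toLp 1 (fun l => ψ (ω l) x) : L1fin k) i)
      ((WithLp.toLp 1 (fun l => ψ (ω l) y) : L1fin k) i) = ∑ l : Fin k, |ψ (ω l) x - ψ (ω l) y| :=
    sum_congr rfl fun i _ => by simp [Real.dist_eq]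
  rw [hsum]
  by_cases hxy : x = y
  · subst hxy; simp
  have hq := hω ⟨(x, y), hxy⟩
  have hdxy : 0 < dist x y := dist_pos.2 hxy
  have hBxy : 0 < B₁ * dist x y := mul_pos hB hdxy
  have e1 : ∑ l, f ⟨(x, y), hxy⟩ (ω l) =
      (∑ l : Fin k, |ψ (ω l) x - ψ (ω l) y|) / (B₁ * dist x y) := by
    rw [hf]; simp only; rw [sum_div]
  rw [e1, hEf ⟨(x, y), hxy⟩] at hq
  simp only at hq
  obtain ⟨hq1, hq2⟩ := hq
  rw [le_div_iff₀ hBxy] at hq1
  rw [div_le_iff₀ hBxy] at hq2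
  set E := Ex p (fun ω => |ψ ω x - ψ ω y|) with hE
  have e2 : k * (E / (B₁ * dist x y)) / 2 * (B₁ * dist x y) = k * E / 2 := by
    field_simp
  have e3 : 2 * k * (E / (B₁ * dist x y)) * (B₁ * dist x y) = 2 * k * E := by
    field_simp
  rw [e2] at hq1
  rw [e3] at hq2
  constructor
  · have := mul_le_mul_of_nonneg_left (h2 x y) hkR.le
    linarith
  · have h5 := mul_le_mul_of_nonneg_left (h3 x y) hkR.le
    have h6 : k * a / 2 * (4 * b / a) * dist x y = 2 * (k * (b * dist x y)) := by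
      field_simp; ring
    rw [h6]
    linarith

theorem Embeds.mono {M : Finset L1} {D D' : ℝ} {k : ℕ} (h : Embeds M D k) (hD : D ≤ D') :
    Embeds M D' k := by
  obtain ⟨f, s, hs, hf⟩ := h
  refine ⟨f, s, hs, fun x y => ⟨(hf x y).1, (hf x y).2.trans ?_⟩⟩
  exact mul_le_mul_of_nonneg_right (mul_le_mul_of_nonneg_left hD hs.le) dist_nonneg

theorem wrap (H : ∀ n : ℕ, 2 ≤ n → ∀ M : Finset L1, M.card ≤ n → ∀ J : ℕ, 20 ≤ J →
    ∃ (Ω : Type) (_ : Fintype Ω) (p : Ω → ℝ) (ψ : Ω → M → ℝ), IsProb p ∧ ∀ x y : M,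
      (∀ ω, |ψ ω x - ψ ω y| ≤ 8 ^ J * (32 * Real.log n + 128) * dist x y) ∧
      J / (25600 * (J + Real.log n)) * dist x y ≤ Ex p (fun ω => |ψ ω x - ψ ω y|) ∧
      Ex p (fun ω => |ψ ω x - ψ ω y|) ≤ 1 / 40 * dist x y) :
    ∃ C : ℝ, 0 < C ∧ ∀ (n : ℕ) (D : ℝ), 2 ≤ n → 5120 ≤ D →
      K n D ≤ ((⌊C * (n : ℝ) ^ (11000 / D) * Real.log n ^ 3⌋₊ : ℕ) : ℕ∞) := by
  refine ⟨8 ^ 21 * (64 * 218 * 25600 * 2) + 4, by positivity, ?_⟩
  intro n D hn hD
  have hn2 : (2 : ℝ) ≤ n := by exact_mod_cast hn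
  have hn0 : (0 : ℝ) < n := by linarith
  have hD0 : (0 : ℝ) < D := by linarith
  set Lg := Real.log n with hLg
  have hLg2 : Real.log 2 ≤ Lg := Real.log_le_log (by norm_num) hn2
  have hl2 : (0.6931471803 : ℝ) < Real.log 2 := Real.log_two_gt_d9
  have hl2' : Real.log 2 < (0.6931471808 : ℝ) := Real.log_two_lt_d9
  have hL : (0.69 : ℝ) ≤ Lg := by linarith
  set J : ℕ := 20 + ⌈5120 * Lg / D⌉₊ with hJ
  have hJ20 : 20 ≤ J := by omega
  have hJR : (20 : ℝ) ≤ J := by exact_mod_cast hJ20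
  have hJ1 : 5120 * Lg / D ≤ J := by
    have h1 := Nat.le_ceil (5120 * Lg / D)
    have h2 : (J : ℝ) = 20 + (⌈5120 * Lg / D⌉₊ : ℝ) := by rw [hJ]; push_cast; ring
    linarith
  have hJ2 : (J : ℝ) ≤ 21 + 5120 * Lg / D := by
    have h1 := Nat.ceil_lt_add_one (a := 5120 * Lg / D) (by positivity)
    have h2 : (J : ℝ) = 20 + (⌈5120 * Lg / D⌉₊ : ℝ) := by rw [hJ]; push_cast; ring
    linarith
  set a : ℝ := J / (25600 * (J + Lg)) with ha
  have hJ0 : (0 : ℝ) < J := by linarith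
  have ha0 : 0 < a := by rw [ha]; positivity
  set B₁ : ℝ := 8 ^ J * (32 * Lg + 128) with hB
  have hB0 : 0 < B₁ := by rw [hB]; positivity
  have hθ0 : 0 < a / B₁ := by positivity
  set k : ℕ := ⌈64 * Lg / (a / B₁)⌉₊ with hk
  have hk0 : 0 < k := Nat.ceil_pos.2 (by positivity)
  have hk1 : 64 * Lg ≤ k * (a / B₁) := by
    have h1 := Nat.le_ceil (64 * Lg / (a / B₁))
    rwa [div_le_iff₀ hθ0] at h1
  have hk2 : (k : ℝ) ≤ 64 * Lg / (a / B₁) + 1 :=
    (Nat.ceil_lt_add_one (a := 64 * Lg / (a / B₁)) (by positivity)).le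
  -- distortion
  have hdist : 4 * (1 / 40) / a ≤ D := by
    have h1 : 4 * (1 / 40) / a = 2560 * (J + Lg) / J := by
      rw [ha]; field_simp; norm_num
    rw [h1, div_le_iff₀ hJ0]
    have h2 : 5120 * Lg ≤ J * D := by
      rwa [div_le_iff₀ hD0] at hJ1
    nlinarith
  have hemb : ∀ M : Finset L1, M.card ≤ n → Embeds M D k := by
    intro M hM
    obtain ⟨Ω, _, p, ψ, hp, hψ⟩ := H n hn M hM J hJ20
    have h1 : Embeds M (4 * (1 / 40) / a) k := by
      refine embeds_of_random hp ψ ha0 hB0 (fun x y ω => (hψ x y).1 ω) (fun x y => (hψ x y).2.1)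
        (fun x y => (hψ x y).2.2) hk0 ?_
      have h2 : (M.card : ℝ) ≤ n := by exact_mod_cast hM
      have h3 : Real.exp (-(k * (a / B₁) / 16)) ≤ Real.exp (-(4 * Lg)) := by
        apply Real.exp_le_exp.2; linarith
      have h4 : Real.exp (-(4 * Lg)) = 1 / (n : ℝ) ^ 4 := by
        have : Real.exp (4 * Lg) = (n : ℝ) ^ 4 := by
          have h5 := Real.exp_nat_mul Lg 4
          push_cast at h5
          rw [h5, hLg, Real.exp_log hn0]
        rw [Real.exp_neg, this, one_div]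
      rw [h4] at h3
      calc 2 * (M.card : ℝ) ^ 2 * Real.exp (-(k * (a / B₁) / 16))
          ≤ 2 * (n : ℝ) ^ 2 * (1 / (n : ℝ) ^ 4) := by
            apply mul_le_mul _ h3 (Real.exp_pos _).le (by positivity)
            apply mul_le_mul_of_nonneg_left _ (by norm_num)
            exact pow_le_pow_left₀ (Nat.cast_nonneg _) h2 2
        _ = 2 / (n : ℝ) ^ 2 := by field_simp
        _ < 1 := by
            rw [div_lt_one (by positivity)]
            nlinarith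
    exact Embeds.mono h1 hdist
  -- the dimension
  have h8 : (8 : ℝ) ^ J ≤ 8 ^ 21 * (n : ℝ) ^ (11000 / D) := by
    have h1 : (8 : ℝ) ^ J = Real.exp (J * Real.log 8) := by
      rw [Real.exp_nat_mul, Real.exp_log (by norm_num)]
    have h2 : (n : ℝ) ^ (11000 / D) = Real.exp (Lg * (11000 / D)) := by
      rw [Real.rpow_def_of_pos hn0]
    have h3 : (8 : ℝ) ^ 21 = Real.exp (21 * Real.log 8) := by
      have h4 := Real.exp_nat_mul (Real.log 8) 21
      push_cast at h4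
      rw [h4, Real.exp_log (by norm_num)]
    rw [h1, h2, h3, ← Real.exp_add]
    apply Real.exp_le_exp.2
    have hl8 : Real.log 8 = 3 * Real.log 2 := by
      have : (8 : ℝ) = 2 ^ 3 := by norm_num
      rw [this, Real.log_pow]; push_cast; ring
    have h5 : Real.log 8 ≤ 2.08 := by rw [hl8]; linarith
    have h6 : 0 < Real.log 8 := Real.log_pos (by norm_num)
    have h7 : (J : ℝ) * Real.log 8 ≤ (21 + 5120 * Lg / D) * Real.log 8 :=
      mul_le_mul_of_nonneg_right hJ2 h6.le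
    have h9 : 5120 * Lg / D * Real.log 8 ≤ Lg * (11000 / D) := by
      have h10 : 5120 * Lg / D * Real.log 8 = (Lg / D) * (5120 * Real.log 8) := by ring
      have h11 : Lg * (11000 / D) = (Lg / D) * 11000 := by ring
      rw [h10, h11]
      apply mul_le_mul_of_nonneg_left _ (by positivity)
      linarith
    linarith
  have hkbound : (k : ℝ) ≤ (8 ^ 21 * (64 * 218 * 25600 * 2) + 4) * (n : ℝ) ^ (11000 / D) *
      Lg ^ 3 := by
    set P := (n : ℝ) ^ (11000 / D) with hP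
    have hP1 : 1 ≤ P := Real.one_le_rpow (by linarith) (by positivity)
    have hinv : 64 * Lg / (a / B₁) = 64 * Lg * (8 ^ J * (32 * Lg + 128)) * (25600 * (1 + Lg / J)) := by
      rw [ha, hB]
      field_simp
    have hA : 1 + Lg / J ≤ 2 * Lg := by
      have h1 : Lg / J ≤ Lg / 20 := div_le_div_of_nonneg_left (by linarith) (by norm_num) hJR
      linarith
    have hB' : 32 * Lg + 128 ≤ 218 * Lg := by linarith
    have hc3 : 1 ≤ 4 * Lg ^ 3 := by
      have h1 : (0.69 : ℝ) ^ 3 ≤ Lg ^ 3 := pow_le_pow_left₀ (by norm_num) hL 3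
      have h2 : (0.69 : ℝ) ^ 3 = 0.328509 := by norm_num
      linarith
    have hLg0 : 0 < Lg := by linarith
    have hm : 64 * Lg * (8 ^ J * (32 * Lg + 128)) * (25600 * (1 + Lg / J)) ≤
        64 * Lg * ((8 ^ 21 * P) * (218 * Lg)) * (25600 * (2 * Lg)) := by
      have hA0 : 0 ≤ 1 + Lg / J := by positivity
      apply mul_le_mul
      · apply mul_le_mul_of_nonneg_left _ (by positivity)
        apply mul_le_mul h8 hB' (by positivity) (by positivity)
      · apply mul_le_mul_of_nonneg_left hA (by norm_num)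
      · positivity
      · positivity
    rw [hinv] at hk2
    have hL3 : 0 < Lg ^ 3 := by positivity
    have h4P : 4 * Lg ^ 3 ≤ 4 * P * Lg ^ 3 := by nlinarith
    calc (k : ℝ) ≤ 64 * Lg * ((8 ^ 21 * P) * (218 * Lg)) * (25600 * (2 * Lg)) + 1 := by linarith
      _ ≤ 64 * Lg * ((8 ^ 21 * P) * (218 * Lg)) * (25600 * (2 * Lg)) + 4 * P * Lg ^ 3 := by
          linarith
      _ = _ := by ring
  have hkfl : k ≤ ⌊(8 ^ 21 * (64 * 218 * 25600 * 2) + 4) * (n : ℝ) ^ (11000 / D) *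
      Lg ^ 3⌋₊ := Nat.le_floor hkbound
  unfold K
  refine iSup_le fun M => iSup_le fun hM => ?_
  unfold dimD
  refine (iInf_le_of_le k (iInf_le _ (hemb M hM))).trans ?_
  exact_mod_cast hkfl

end Pool.Agent.Lib.MP_716709_gt.Upper
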