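import Pool.Agent.Lib.MP_716709_gt.Points
import Pool.Agent.Lib.MP_716709_gt.Upper.Sampling

set_option autoImplicit false

namespace Pool.Agent.Lib.MP_716709_gt.Upper

open Finset

open scoped symmDiff

section parity
variable {m : ℕ}

/-- Bernoulli(p) weights on the subsets of `Fin m` -/
noncomputable def bern (p : ℝ) (T : Finset (Fin m)) : ℝ :=
  (∏ _i ∈ T, p) * ∏ _i ∈ univ \ T, (1 - p)

theorem bern_isProb {p : ℝ} (h0 : 0 ≤ p) (h1 : p ≤ 1) : IsProb (bern (m := m) p) := by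
  refine ⟨fun T => mul_nonneg (prod_nonneg fun _ _ => h0)
    (prod_nonneg fun _ _ => by linarith), ?_⟩
  have h := Finset.prod_add (fun _ : Fin m => p) (fun _ => 1 - p) univ
  rw [powerset_univ] at h
  unfold bern
  rw [← h]
  simp

theorem bern_char {p : ℝ} (S : Finset (Fin m)) :
    Ex (bern p) (fun T => (-1 : ℝ) ^ (T ∩ S).card) = (1 - 2 * p) ^ S.card := by
  have h := Finset.prod_add (fun i : Fin m => p * (if i ∈ S then (-1 : ℝ) else 1))
    (fun _ => 1 - p) univ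
  rw [powerset_univ] at h
  have h2 : ∏ i : Fin m, (p * (if i ∈ S then (-1 : ℝ) else 1) + (1 - p))
      = (1 - 2 * p) ^ S.card := by
    have h3 : ∀ i : Fin m, p * (if i ∈ S then (-1 : ℝ) else 1) + (1 - p)
        = if i ∈ S then (1 - 2 * p) else 1 := by
      intro i; split_ifs <;> ring
    rw [prod_congr rfl fun i _ => h3 i, prod_ite, prod_const, prod_const, one_pow, mul_one]
    congr 2
    simp
  rw [← h2, h]
  unfold Ex bern
  refine sum_congr rfl fun T _ => ?_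
  rw [prod_mul_distrib]
  have h4 : ∏ i ∈ T, (if i ∈ S then (-1 : ℝ) else 1) = (-1) ^ (T ∩ S).card := by
    rw [prod_ite, prod_const, prod_const, one_pow, mul_one]
    congr 2
  rw [h4]; ring

/-- the parity of a natural number, as a real number -/
noncomputable def par (n : ℕ) : ℝ := (1 - (-1 : ℝ) ^ n) / 2

theorem par_mem (n : ℕ) : 0 ≤ par n ∧ par n ≤ 1 := by
  unfold par
  rcases neg_one_pow_eq_or ℝ n with h | h <;> rw [h] <;> norm_num

theorem neg_one_pow_symmDiff (T A B : Finset (Fin m)) :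
    (-1 : ℝ) ^ (T ∩ (A ∆ B)).card = (-1) ^ (T ∩ A).card * (-1) ^ (T ∩ B).card := by
  have hA : (T ∩ A).card = (T ∩ (A \ B)).card + (T ∩ (A ∩ B)).card := by
    rw [← card_union_of_disjoint]
    · congr 1; ext i; simp only [mem_inter, mem_union, mem_sdiff]; tauto
    · rw [disjoint_left]; intro i; simp only [mem_inter, mem_sdiff]; tauto
  have hB : (T ∩ B).card = (T ∩ (B \ A)).card + (T ∩ (A ∩ B)).card := by
    rw [← card_union_of_disjoint]
    · congr 1; ext i; simp only [mem_inter, mem_union, mem_sdiff]; tauto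
    · rw [disjoint_left]; intro i; simp only [mem_inter, mem_sdiff]; tauto
  have hS : (T ∩ (A ∆ B)).card = (T ∩ (A \ B)).card + (T ∩ (B \ A)).card := by
    rw [← card_union_of_disjoint]
    · congr 1; ext i
      simp only [mem_inter, mem_union, mem_sdiff, mem_symmDiff]; tauto
    · rw [disjoint_left]; intro i; simp only [mem_inter, mem_sdiff]; tauto
  rw [hA, hB, hS, ← pow_add]
  have : (T ∩ (A \ B)).card + (T ∩ (A ∩ B)).card + ((T ∩ (B \ A)).card + (T ∩ (A ∩ B)).card)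
      = (T ∩ (A \ B)).card + (T ∩ (B \ A)).card + 2 * (T ∩ (A ∩ B)).card := by ring
  rw [this, pow_add _ _ (2 * _), pow_mul (-1 : ℝ) 2]
  norm_num

theorem abs_par_sub (T A B : Finset (Fin m)) :
    |par (T ∩ A).card - par (T ∩ B).card| = (1 - (-1 : ℝ) ^ (T ∩ (A ∆ B)).card) / 2 := by
  rw [neg_one_pow_symmDiff]
  unfold par
  rcases neg_one_pow_eq_or ℝ (T ∩ A).card with h | h <;>
    rcases neg_one_pow_eq_or ℝ (T ∩ B).card with h' | h' <;> rw [h, h'] <;> norm_num

theorem Ex_par {p : ℝ} (h0 : 0 ≤ p) (h1 : p ≤ 1) (A B : Finset (Fin m)) :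
    Ex (bern p) (fun T => |par (T ∩ A).card - par (T ∩ B).card|)
      = (1 - (1 - 2 * p) ^ (A ∆ B).card) / 2 := by
  have h : (fun T : Finset (Fin m) => |par (T ∩ A).card - par (T ∩ B).card|)
      = fun T => (1 / 2 : ℝ) * (1 - (-1 : ℝ) ^ (T ∩ (A ∆ B)).card) := by
    funext T; rw [abs_par_sub]; ring
  rw [h, Ex_mul_left, Ex_sub, Ex_const (bern_isProb h0 h1), bern_char]
  ring

theorem par_bounds {p : ℝ} (h0 : 0 ≤ p) (h1 : p ≤ 1 / 2) (s : ℕ) :
    (1 - (1 - 2 * p) ^ s) / 2 ≤ p * s ∧ p * s / (1 + 2 * (p * s)) ≤ (1 - (1 - 2 * p) ^ s) / 2 := by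
  constructor
  · have := one_add_mul_le_pow (a := -(2 * p)) (by linarith) s
    have h2 : (1 + -(2 * p)) = 1 - 2 * p := by ring
    rw [h2] at this
    nlinarith
  · have h3 := one_add_mul_le_pow (a := 2 * p) (by linarith) s
    have hps : 0 ≤ p * s := by positivity
    have hq : 0 ≤ (1 - 2 * p) ^ s := pow_nonneg (by linarith) s
    have h4 : (1 - 2 * p) ^ s * (1 + 2 * (p * s)) ≤ 1 := by
      calc (1 - 2 * p) ^ s * (1 + 2 * (p * s)) ≤ (1 - 2 * p) ^ s * (1 + 2 * p) ^ s := by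
            refine mul_le_mul_of_nonneg_left ?_ hq
            linarith
        _ = (1 - (2 * p) ^ 2) ^ s := by rw [← mul_pow]; ring
        _ ≤ 1 := pow_le_one₀ (by nlinarith) (by nlinarith [sq_nonneg (2 * p)])
    rw [div_le_div_iff₀ (by linarith) (by norm_num)]
    nlinarith

end parity

theorem hasSum_dist (x y : L1) : HasSum (fun i => |x i - y i|) (dist x y) := by
  have hf : (fun i => ‖(x - y : L1) i‖ ^ (1 : ENNReal).toReal) = fun i => |x i - y i| := by
    funext i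
    rw [lp.coeFn_sub, Pi.sub_apply, Real.norm_eq_abs]
    simp
  have hm : Memℓp (x - y : L1) 1 := lp.memℓp _
  have h1 : Summable fun i => ‖(x - y : L1) i‖ ^ (1 : ENNReal).toReal :=
    hm.summable (by simp)
  rw [hf] at h1
  have h2 : dist x y = ∑' i, |x i - y i| := by
    rw [dist_eq_norm, lp.norm_eq_tsum_rpow (by simp), hf]
    simp
  rw [h2]
  exact h1.hasSum

theorem card_xor (K a b : ℕ) (ha : a ≤ K) (hb : b ≤ K) :
    ∑ j : Fin K, (if ((j : ℕ) < a ∧ ¬ (j : ℕ) < b) ∨ ((j : ℕ) < b ∧ ¬ (j : ℕ) < a) then 1 else 0 : ℝ)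
      = |(a : ℝ) - b| := by
  wlog hab : a ≤ b with hw
  · have := hw K b a hb ha (by omega)
    rw [abs_sub_comm, ← this]
    refine sum_congr rfl fun j _ => ?_
    congr 1
    exact propext or_comm
  rw [Fin.sum_univ_eq_sum_range
    (fun j => (if (j < a ∧ ¬ j < b) ∨ (j < b ∧ ¬ j < a) then 1 else 0 : ℝ)) K]
  rw [← sum_filter, sum_const, nsmul_eq_mul, mul_one]
  have h1 : (range K).filter (fun j => (j < a ∧ ¬ j < b) ∨ (j < b ∧ ¬ j < a)) = Ico a b := by
    ext j
    simp only [mem_filter, mem_range, mem_Ico]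
    omega
  rw [h1, Nat.card_Ico, Nat.cast_sub hab, abs_sub_comm, abs_of_nonneg]
  have : (a : ℝ) ≤ b := by exact_mod_cast hab
  linarith

/-- rounding of a difference -/
theorem round_bounds {h u v : ℝ} (h0 : 0 < h) (hu : 0 ≤ u) (hv : 0 ≤ v) :
    |u - v| - h ≤ h * |((⌊u / h⌋₊ : ℕ) : ℝ) - (⌊v / h⌋₊ : ℕ)| ∧
      h * |((⌊u / h⌋₊ : ℕ) : ℝ) - (⌊v / h⌋₊ : ℕ)| ≤ |u - v| + h := by
  have hu1 := Nat.floor_le (div_nonneg hu h0.le)
  have hu2 := Nat.lt_floor_add_one (u / h)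
  have hv1 := Nat.floor_le (div_nonneg hv h0.le)
  have hv2 := Nat.lt_floor_add_one (v / h)
  set a : ℝ := ((⌊u / h⌋₊ : ℕ) : ℝ)
  set b : ℝ := ((⌊v / h⌋₊ : ℕ) : ℝ)
  have e1 : h * a ≤ u := by rw [le_div_iff₀ h0] at hu1; linarith
  have e2 : u < h * a + h := by rw [div_lt_iff₀ h0] at hu2; linarith
  have e3 : h * b ≤ v := by rw [le_div_iff₀ h0] at hv1; linarith
  have e4 : v < h * b + h := by rw [div_lt_iff₀ h0] at hv2; linarith
  have e5 : h * |a - b| = |h * a - h * b| := by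
    rw [← mul_sub, abs_mul, abs_of_pos h0]
  rw [e5]
  constructor
  · rw [sub_le_iff_le_add, abs_le]
    have := neg_abs_le (h * a - h * b)
    have := le_abs_self (h * a - h * b)
    constructor <;> linarith
  · rw [abs_le]
    have := neg_abs_le (u - v)
    have := le_abs_self (u - v)
    constructor <;> linarith

/-- Hamming representation of a finite subset of `ℓ₁` on `Fin m`. -/
theorem exists_hamming (M : Finset L1) {η : ℝ} (hη : 0 < η) :
    ∃ (m : ℕ) (H : M → Finset (Fin m)) (h : ℝ), 0 < h ∧ h ≤ η ∧ ∀ x y : M,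
      dist x y / 2 ≤ h * (H x ∆ H y).card ∧ h * (H x ∆ H y).card ≤ 3 / 2 * dist x y := by
  classical
  -- truncation of the coordinates
  have hN : ∀ᶠ N : ℕ in Filter.atTop, ∀ q : M × M,
      3 / 4 * dist q.1 q.2 ≤ ∑ i ∈ range N, |(q.1 : L1) i - (q.2 : L1) i| := by
    rw [Filter.eventually_all]
    intro q
    rcases eq_or_ne q.1 q.2 with h | h
    · refine Filter.Eventually.of_forall fun N => ?_
      rw [h, dist_self, mul_zero]
      exact sum_nonneg fun _ _ => abs_nonneg _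
    · have hpos : 0 < dist q.1 q.2 := dist_pos.2 h
      have ht := (hasSum_dist (q.1 : L1) q.2).tendsto_sum_nat
      have : 3 / 4 * dist q.1 q.2 < dist (q.1 : L1) q.2 := by
        rw [← Subtype.dist_eq]; linarith
      exact (ht.eventually (lt_mem_nhds this)).mono fun N hN => hN.le
  obtain ⟨N, hN⟩ := hN.exists
  -- mesh
  have hh : ∀ᶠ h : ℝ in nhdsWithin 0 (Set.Ioi 0), ∀ q : M × M, q.1 ≠ q.2 →
      N * h ≤ dist q.1 q.2 / 4 := by
    rw [Filter.eventually_all]
    intro q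
    rcases eq_or_ne q.1 q.2 with h | h
    · exact Filter.Eventually.of_forall fun _ hq => absurd h hq
    · have hpos : 0 < dist q.1 q.2 / 4 := by
        have := dist_pos.2 h
        linarith
      have ht : Filter.Tendsto (fun h : ℝ => N * h) (nhdsWithin 0 (Set.Ioi 0)) (nhds 0) := by
        have : Filter.Tendsto (fun h : ℝ => N * h) (nhds 0) (nhds (N * 0)) :=
          (continuous_const.mul continuous_id).tendsto 0
        rw [mul_zero] at this
        exact this.mono_left nhdsWithin_le_nhds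
      exact (ht.eventually (gt_mem_nhds hpos)).mono fun h hh _ => hh.le
  have hle : ∀ᶠ h : ℝ in nhdsWithin 0 (Set.Ioi 0), h ≤ η :=
    (gt_mem_nhds hη).filter_mono nhdsWithin_le_nhds |>.mono fun h hh => hh.le
  have hpos : ∀ᶠ h : ℝ in nhdsWithin 0 (Set.Ioi 0), 0 < h := self_mem_nhdsWithin
  obtain ⟨h, hh, hle, hpos⟩ := (hh.and (hle.and hpos)).exists
  -- bound of the coordinates
  set B : ℝ := ∑ x : M, ‖(x : L1)‖ with hB
  have hB1 : ∀ (x : M) (i : ℕ), |(x : L1) i| ≤ B := by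
    intro x i
    have h1 : ‖(x : L1) i‖ ≤ ‖(x : L1)‖ := lp.norm_apply_le_norm (by simp) _ _
    have h2 : ‖(x : L1)‖ ≤ B := single_le_sum (f := fun x : M => ‖(x : L1)‖)
      (fun _ _ => norm_nonneg _) (mem_univ x)
    rw [Real.norm_eq_abs] at h1
    exact h1.trans h2
  have hB2 : ∀ (x : M) (i : ℕ), 0 ≤ (x : L1) i + B ∧ (x : L1) i + B ≤ 2 * B := by
    intro x i
    have := abs_le.1 (hB1 x i)
    constructor <;> linarith
  set K : ℕ := ⌊2 * B / h⌋₊ with hK
  set a : M → ℕ → ℕ := fun x i => ⌊((x : L1) i + B) / h⌋₊ with ha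
  have haK : ∀ x i, a x i ≤ K := fun x i =>
    Nat.floor_le_floor (div_le_div_of_nonneg_right (hB2 x i).2 hpos.le)
  set E := Fin N × Fin K
  set H : M → Finset E := fun x => univ.filter fun q : E => (q.2 : ℕ) < a x q.1 with hH
  have hcard : ∀ x y : M, ((H x ∆ H y).card : ℝ) = ∑ i ∈ range N, |(a x i : ℝ) - a y i| := by
    intro x y
    have h1 : H x ∆ H y = univ.filter fun q : E =>
        (((q.2 : ℕ) < a x q.1 ∧ ¬ (q.2 : ℕ) < a y q.1) ∨
          ((q.2 : ℕ) < a y q.1 ∧ ¬ (q.2 : ℕ) < a x q.1)) := by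
      ext q
      simp only [hH, mem_symmDiff, mem_filter, mem_univ, true_and]
    rw [h1, card_filter]
    push_cast
    rw [← univ_product_univ, sum_product]
    rw [← Fin.sum_univ_eq_sum_range (fun i => |(a x i : ℝ) - a y i|) N]
    refine sum_congr rfl fun i _ => ?_
    exact card_xor K (a x i) (a y i) (haK _ _) (haK _ _)
  set e := (Fintype.equivFin E).toEmbedding
  refine ⟨Fintype.card E, fun x => (H x).map e, h, hpos, hle, fun x y => ?_⟩
  have hc2 : (((H x).map e) ∆ ((H y).map e)).card = (H x ∆ H y).card := by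
    rw [show ((H x).map e) ∆ ((H y).map e) = (H x ∆ H y).map e from ?_, card_map]
    ext t
    simp only [mem_symmDiff, mem_map]
    constructor
    · rintro (⟨⟨u, hu, rfl⟩, h2⟩ | ⟨⟨u, hu, rfl⟩, h2⟩)
      · exact ⟨u, Or.inl ⟨hu, fun h => h2 ⟨u, h, rfl⟩⟩, rfl⟩
      · exact ⟨u, Or.inr ⟨hu, fun h => h2 ⟨u, h, rfl⟩⟩, rfl⟩
    · rintro ⟨u, hu | hu, rfl⟩
      · exact Or.inl ⟨⟨u, hu.1, rfl⟩, fun ⟨v, hv, hvu⟩ => hu.2 (e.injective hvu ▸ hv)⟩
      · exact Or.inr ⟨⟨u, hu.1, rfl⟩, fun ⟨v, hv, hvu⟩ => hu.2 (e.injective hvu ▸ hv)⟩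
  rw [hc2, hcard]
  rcases eq_or_ne x y with hxy | hxy
  · subst hxy
    simp
  have hd : 0 < dist x y := dist_pos.2 hxy
  have hNh := hh (x, y) hxy
  have hNx := hN (x, y)
  simp only at hNh hNx
  have hsumle : ∑ i ∈ range N, |(x : L1) i - (y : L1) i| ≤ dist x y := by
    rw [Subtype.dist_eq]
    exact sum_le_hasSum _ (fun _ _ => abs_nonneg _) (hasSum_dist (x : L1) y)
  have hr : ∀ i, |(x : L1) i - (y : L1) i| - h ≤ h * |(a x i : ℝ) - a y i| ∧
      h * |(a x i : ℝ) - a y i| ≤ |(x : L1) i - (y : L1) i| + h := by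
    intro i
    have := round_bounds hpos (hB2 x i).1 (hB2 y i).1
    have e1 : (x : L1) i + B - ((y : L1) i + B) = (x : L1) i - (y : L1) i := by ring
    rw [e1] at this
    exact this
  have s1 : ∑ i ∈ range N, (|(x : L1) i - (y : L1) i| - h)
      ≤ ∑ i ∈ range N, h * |(a x i : ℝ) - a y i| := sum_le_sum fun i _ => (hr i).1
  have s2 : ∑ i ∈ range N, h * |(a x i : ℝ) - a y i|
      ≤ ∑ i ∈ range N, (|(x : L1) i - (y : L1) i| + h) := sum_le_sum fun i _ => (hr i).2
  rw [← mul_sum] at s1 s2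
  rw [sum_sub_distrib, sum_const, card_range, nsmul_eq_mul] at s1
  rw [sum_add_distrib, sum_const, card_range, nsmul_eq_mul] at s2
  constructor <;> linarith

theorem exists_beta (M : Finset L1) {Δ₀ : ℝ} (hΔ₀ : 0 < Δ₀) :
    ∃ (m : ℕ) (β : Finset (Fin m) → M → ℝ) (w : ℝ → Finset (Fin m) → ℝ),
      (∀ T x, 0 ≤ β T x ∧ β T x ≤ 1) ∧ ∀ Δ, Δ₀ ≤ Δ → IsProb (w Δ) ∧ ∀ x y : M,
        Ex (w Δ) (fun T => |β T x - β T y|) ≤ dist x y / Δ ∧
        (1 / 5) * min 1 (dist x y / Δ) ≤ Ex (w Δ) (fun T => |β T x - β T y|) := by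
  obtain ⟨m, H, h, h0, hh, hH⟩ := exists_hamming M (η := Δ₀ / 2) (by linarith)
  refine ⟨m, fun T x => par (T ∩ H x).card, fun Δ => bern (h / (3 / 2 * Δ)),
    fun T x => par_mem _, fun Δ hΔ => ?_⟩
  have hΔ0 : 0 < Δ := lt_of_lt_of_le hΔ₀ hΔ
  have hp0 : 0 ≤ h / (3 / 2 * Δ) := by positivity
  have hp1 : h / (3 / 2 * Δ) ≤ 1 / 2 := by
    rw [div_le_div_iff₀ (by positivity) (by norm_num)]
    nlinarith
  refine ⟨bern_isProb hp0 (by linarith), fun x y => ?_⟩
  rw [Ex_par hp0 (by linarith)]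
  obtain ⟨hb1, hb2⟩ := par_bounds hp0 hp1 (H x ∆ H y).card
  obtain ⟨hx1, hx2⟩ := hH x y
  set s : ℝ := ((H x ∆ H y).card : ℝ) with hs
  have hd : 0 ≤ dist x y := dist_nonneg
  have he : h / (3 / 2 * Δ) * s = (h * s) / (3 / 2 * Δ) := by ring
  constructor
  · refine hb1.trans ?_
    rw [he, div_le_div_iff₀ (by positivity) hΔ0]
    nlinarith
  · refine le_trans ?_ hb2
    set v : ℝ := h / (3 / 2 * Δ) * s with hv
    have hv1 : dist x y / Δ / 3 ≤ v := by
      rw [he, div_div, div_le_div_iff₀ (by positivity) (by positivity)]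
      nlinarith
    set u : ℝ := dist x y / Δ with hu
    have hu0 : 0 ≤ u := by positivity
    have hv0 : 0 ≤ v := by linarith
    rw [le_div_iff₀ (by linarith)]
    rcases le_total 1 u with h1 | h1
    · rw [min_eq_left h1]
      linarith
    · rw [min_eq_right h1]
      nlinarith

end Pool.Agent.Lib.MP_716709_gt.Upper
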