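import Mathlib

set_option autoImplicit false

namespace Pool.Agent.Lib.MP_716709_gt.Upper

open Finset

variable {X : Type*} [Fintype X] [MetricSpace X]

open Classical in
/-- closed ball as a finite set -/
noncomputable def bl (x : X) (r : ℝ) : Finset X := univ.filter (fun z => dist x z ≤ r)

theorem mem_bl {x z : X} {r : ℝ} : z ∈ bl x r ↔ dist x z ≤ r := by
  classical
  simp [bl]

/-- logarithm of the number of points of a ball -/
noncomputable def Lc (x : X) (r : ℝ) : ℝ := Real.log ((bl x r).card : ℝ)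

theorem card_bl_pos {x : X} {r : ℝ} (hr : 0 ≤ r) : 0 < (bl x r).card :=
  card_pos.2 ⟨x, mem_bl.2 (by simpa using hr)⟩

theorem bl_mono {x : X} {r r' : ℝ} (h : r ≤ r') : bl x r ⊆ bl x r' := fun _ hz =>
  mem_bl.2 ((mem_bl.1 hz).trans h)

theorem card_bl_posR (x : X) {r : ℝ} (hr : 0 ≤ r) : (0 : ℝ) < ((bl x r).card : ℝ) :=
  Nat.cast_pos.2 (card_bl_pos hr)

omit [Fintype X] [MetricSpace X] in
theorem card_leR {s t : Finset X} (h : s ⊆ t) : (s.card : ℝ) ≤ (t.card : ℝ) :=
  Nat.cast_le.2 (card_le_card h)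

theorem Lc_mono {x : X} {r r' : ℝ} (hr : 0 ≤ r) (h : r ≤ r') : Lc x r ≤ Lc x r' := by
  unfold Lc
  exact Real.log_le_log (card_bl_posR x hr) (card_leR (bl_mono h))

theorem Lc_nonneg (x : X) (r : ℝ) : 0 ≤ Lc x r := by
  unfold Lc
  exact Real.log_natCast_nonneg _

theorem Lc_le {n : ℕ} (hn : Fintype.card X ≤ n) (x : X) {r : ℝ} (hr : 0 ≤ r) :
    Lc x r ≤ Real.log n := by
  unfold Lc
  exact Real.log_le_log (card_bl_posR x hr) (Nat.cast_le.2 ((card_le_univ _).trans hn))

open Classical in
/-- uniform distribution on a ball -/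
noncomputable def unif (x : X) (r : ℝ) (z : X) : ℝ :=
  if dist x z ≤ r then 1 / ((bl x r).card : ℝ) else 0

theorem unif_nonneg (x : X) (r : ℝ) (z : X) : 0 ≤ unif x r z := by
  unfold unif; split_ifs <;> positivity

theorem sum_unif (x : X) {r : ℝ} (hr : 0 ≤ r) : ∑ z, unif x r z = 1 := by
  classical
  unfold unif
  rw [← sum_filter]
  have h : (univ.filter (fun z => dist x z ≤ r)) = bl x r := by ext z; simp [mem_bl]
  rw [h, sum_const, nsmul_eq_mul]
  have := card_bl_pos (x := x) hr
  field_simp

theorem tv {x y : X} {r : ℝ} (h : dist x y ≤ r) :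
    ∑ z, |unif x r z - unif y r z| ≤ 2 * (Lc x (r + dist x y) - Lc x (r - dist x y)) := by
  classical
  set t := dist x y with ht
  have ht0 : 0 ≤ t := dist_nonneg
  have hr : 0 ≤ r := ht0.trans h
  set a : ℝ := ((bl x (r - t)).card : ℝ) with ha
  set b : ℝ := ((bl x (r + t)).card : ℝ) with hb
  have ha0 : 0 < a := card_bl_posR x (by linarith)
  have hb0 : 0 < b := card_bl_posR x (by linarith)
  have h1 : ∀ z, |unif x r z - unif y r z| =
      unif x r z + unif y r z - 2 * min (unif x r z) (unif y r z) := by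
    intro z
    rcases le_total (unif x r z) (unif y r z) with h | h
    · rw [min_eq_left h, abs_of_nonpos (by linarith)]; ring
    · rw [min_eq_right h, abs_of_nonneg (by linarith)]; ring
  have h2 : ∑ z, |unif x r z - unif y r z| = 2 - 2 * ∑ z, min (unif x r z) (unif y r z) := by
    rw [sum_congr rfl (fun z _ => h1 z), sum_sub_distrib, sum_add_distrib, sum_unif x hr,
      sum_unif y hr, ← mul_sum]
    ring
  have h3 : a / b ≤ ∑ z, min (unif x r z) (unif y r z) := by
    have h4 : ∑ z ∈ bl x (r - t), 1 / b ≤ ∑ z ∈ bl x (r - t), min (unif x r z) (unif y r z) := by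
      refine sum_le_sum fun z hz => ?_
      have hz1 := mem_bl.1 hz
      have hzx : dist x z ≤ r := by linarith
      have hzy : dist y z ≤ r := by
        have := dist_triangle y x z
        rw [dist_comm y x] at this
        linarith
      have hbx : ((bl x r).card : ℝ) ≤ b := card_leR (bl_mono (by linarith))
      have hby : ((bl y r).card : ℝ) ≤ b := by
        have : bl y r ⊆ bl x (r + t) := fun w hw => mem_bl.2 (by
          have h5 := mem_bl.1 hw
          have := dist_triangle x y w
          linarith)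
        exact card_leR this
      have p1 : (0 : ℝ) < (bl x r).card := card_bl_posR x hr
      have p2 : (0 : ℝ) < (bl y r).card := card_bl_posR y hr
      unfold unif
      rw [if_pos hzx, if_pos hzy]
      exact le_min (one_div_le_one_div_of_le p1 hbx) (one_div_le_one_div_of_le p2 hby)
    rw [sum_const, nsmul_eq_mul] at h4
    have h5 : ∑ z ∈ bl x (r - t), min (unif x r z) (unif y r z) ≤
        ∑ z, min (unif x r z) (unif y r z) :=
      sum_le_sum_of_subset_of_nonneg (subset_univ _) fun z _ _ =>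
        le_min (unif_nonneg _ _ _) (unif_nonneg _ _ _)
    calc a / b = a * (1 / b) := by ring
      _ ≤ _ := h4.trans h5
  have h6 : 1 - a / b ≤ Lc x (r + t) - Lc x (r - t) := by
    have h7 : Real.log (a / b) ≤ a / b - 1 := Real.log_le_sub_one_of_pos (by positivity)
    have h8 : Real.log (a / b) = Lc x (r - t) - Lc x (r + t) := by
      rw [Real.log_div ha0.ne' hb0.ne']; rfl
    linarith
  rw [h2]
  linarith

/-- averaging kernel at scale `s` -/
noncomputable def ker (s : ℝ) (Q : ℕ) (x z : X) : ℝ :=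
  (1 / (Q : ℝ)) * ∑ m ∈ range Q, unif x (s / 4 + m * (s / (4 * Q))) z

theorem ker_nonneg (s : ℝ) (Q : ℕ) (x z : X) : 0 ≤ ker s Q x z := by
  unfold ker
  exact mul_nonneg (by positivity) (sum_nonneg fun m _ => unif_nonneg _ _ _)

theorem rad_nonneg {s : ℝ} (hs : 0 < s) (Q m : ℕ) : 0 ≤ s / 4 + m * (s / (4 * Q)) := by
  positivity

theorem sum_ker {s : ℝ} (hs : 0 < s) {Q : ℕ} (hQ : 0 < Q) (x : X) : ∑ z, ker s Q x z = 1 := by
  unfold ker
  rw [← mul_sum, sum_comm]
  rw [sum_congr rfl (fun m _ => sum_unif x (rad_nonneg hs Q m)), sum_const, card_range,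
    nsmul_eq_mul]
  field_simp

theorem ker_support {s : ℝ} (hs : 0 < s) {Q : ℕ} {x z : X} (h : s / 2 < dist x z) :
    ker s Q x z = 0 := by
  unfold ker
  rw [sum_eq_zero, mul_zero]
  intro m hm
  have hm' : m < Q := mem_range.1 hm
  have hQ : (0 : ℝ) < Q := by exact_mod_cast (Nat.zero_le m).trans_lt hm'
  unfold unif
  rw [if_neg]
  push Not
  refine lt_of_le_of_lt ?_ h
  have h1 : (m : ℝ) * (s / (4 * Q)) ≤ Q * (s / (4 * Q)) := by
    apply mul_le_mul_of_nonneg_right _ (by positivity)
    exact_mod_cast hm'.le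
  have h2 : (Q : ℝ) * (s / (4 * Q)) = s / 4 := by field_simp
  linarith

theorem shift_sum (f : ℕ → ℝ) (Q p : ℕ) :
    ∑ m ∈ range Q, (f (m + p) - f m) = ∑ m ∈ range p, (f (m + Q) - f m) := by
  rw [sum_sub_distrib, sum_sub_distrib]
  have h1 := sum_range_add f p Q
  have h2 := sum_range_add f Q p
  rw [add_comm p Q] at h1
  have h3 : ∑ m ∈ range Q, f (m + p) = ∑ x ∈ range Q, f (p + x) :=
    sum_congr rfl fun m _ => by rw [add_comm]
  have h4 : ∑ m ∈ range p, f (m + Q) = ∑ x ∈ range p, f (Q + x) :=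
    sum_congr rfl fun m _ => by rw [add_comm]
  rw [h3, h4]
  linarith

theorem ker_tv {s : ℝ} (hs : 0 < s) {Q : ℕ} (hQ : 0 < Q) {x y : X}
    (ht : dist x y ≤ s / 16) (hh : s / (4 * Q) ≤ dist x y) :
    ∑ z, |ker s Q x z - ker s Q y z| ≤ 32 * dist x y / s * (Lc x s - Lc x (s / 8)) := by
  set t := dist x y with htdef
  set h := s / (4 * (Q : ℝ)) with hhdef
  have hQ' : (0 : ℝ) < Q := by exact_mod_cast hQ
  have hh0 : 0 < h := by positivity
  have ht0 : 0 < t := hh0.trans_le hh
  have hQh : (Q : ℝ) * h = s / 4 := by rw [hhdef]; field_simp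
  -- the number of steps
  set q : ℕ := ⌈t / h⌉₊ with hq
  have hq1 : t ≤ q * h := by
    have := Nat.le_ceil (t / h)
    rw [div_le_iff₀ hh0] at this
    exact this
  have hq2 : (q : ℝ) * h ≤ 2 * t := by
    have h1 : (q : ℝ) < t / h + 1 := Nat.ceil_lt_add_one (by positivity)
    have h2 : (q : ℝ) * h < (t / h + 1) * h := mul_lt_mul_of_pos_right h1 hh0
    have h3 : (t / h + 1) * h = t + h := by field_simp
    linarith
  have hq3 : (q : ℝ) * h ≤ s / 8 := by linarith
  -- radius
  have hrad : ∀ m : ℕ, t ≤ s / 4 + m * h := fun m => by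
    have : (0 : ℝ) ≤ m * h := by positivity
    linarith
  have step1 : ∑ z, |ker s Q x z - ker s Q y z| ≤
      (1 / (Q : ℝ)) * ∑ m ∈ range Q, 2 * (Lc x (s / 4 + m * h + t) - Lc x (s / 4 + m * h - t)) := by
    have h1 : ∀ z, |ker s Q x z - ker s Q y z| ≤
        (1 / (Q : ℝ)) * ∑ m ∈ range Q, |unif x (s / 4 + m * h) z - unif y (s / 4 + m * h) z| := by
      intro z
      unfold ker
      rw [← mul_sub, ← sum_sub_distrib, abs_mul, abs_of_nonneg (by positivity : (0:ℝ) ≤ 1 / Q)]
      exact mul_le_mul_of_nonneg_left (abs_sum_le_sum_abs _ _) (by positivity)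
    refine (sum_le_sum fun z _ => h1 z).trans ?_
    rw [← mul_sum, sum_comm]
    apply mul_le_mul_of_nonneg_left _ (by positivity)
    exact sum_le_sum fun m _ => tv (hrad m)
  -- telescoping
  set f : ℕ → ℝ := fun j => Lc x (s / 4 + ((j : ℝ) - q) * h) with hf
  have hfmono : ∀ {i j : ℕ}, i ≤ j → f i ≤ f j := by
    intro i j hij
    have hij' : (i : ℝ) ≤ j := by exact_mod_cast hij
    apply Lc_mono
    · have : ((i : ℝ) - q) * h ≥ -(q * h) := by
        have : (0 : ℝ) ≤ i * h := by positivity
        linarith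
      linarith
    · have : ((i : ℝ) - q) * h ≤ ((j : ℝ) - q) * h :=
        mul_le_mul_of_nonneg_right (by linarith) hh0.le
      linarith
  have step2 : ∑ m ∈ range Q, 2 * (Lc x (s / 4 + m * h + t) - Lc x (s / 4 + m * h - t)) ≤
      2 * ∑ m ∈ range Q, (f (m + 2 * q) - f m) := by
    rw [mul_sum]
    refine sum_le_sum fun m _ => ?_
    have g1 : Lc x (s / 4 + m * h + t) ≤ f (m + 2 * q) := by
      apply Lc_mono
      · have : (0 : ℝ) ≤ m * h := by positivity
        linarith
      · push_cast
        have : ((m : ℝ) + 2 * q - q) * h = m * h + q * h := by ring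
        rw [this]; linarith
    have g2 : f m ≤ Lc x (s / 4 + m * h - t) := by
      apply Lc_mono
      · have : (0 : ℝ) ≤ m * h := by positivity
        have h5 : ((m : ℝ) - q) * h = m * h - q * h := by ring
        rw [h5]; linarith
      · have h5 : ((m : ℝ) - q) * h = m * h - q * h := by ring
        rw [h5]; linarith
    linarith
  have step3 : ∑ m ∈ range Q, (f (m + 2 * q) - f m) ≤ (2 * q : ℝ) * (Lc x s - Lc x (s / 8)) := by
    rw [shift_sum]
    have h1 : ∀ m ∈ range (2 * q), f (m + Q) - f m ≤ Lc x s - Lc x (s / 8) := by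
      intro m hm
      have hm' : m < 2 * q := mem_range.1 hm
      have hm'' : (m : ℝ) < 2 * q := by exact_mod_cast hm'
      have g1 : f (m + Q) ≤ Lc x s := by
        apply Lc_mono
        · push_cast
          have h5 : ((m : ℝ) + Q - q) * h = m * h + Q * h - q * h := by ring
          have : (0 : ℝ) ≤ m * h := by positivity
          rw [h5, hQh]; linarith
        · push_cast
          have h5 : ((m : ℝ) + Q - q) * h = m * h + Q * h - q * h := by ring
          have h6 : (m : ℝ) * h ≤ 2 * q * h := mul_le_mul_of_nonneg_right hm''.le hh0.le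
          rw [h5, hQh]; linarith
      have g2 : Lc x (s / 8) ≤ f m := by
        apply Lc_mono (by positivity)
        have h5 : ((m : ℝ) - q) * h = m * h - q * h := by ring
        have : (0 : ℝ) ≤ m * h := by positivity
        rw [h5]; linarith
      linarith
    refine (sum_le_sum h1).trans ?_
    rw [sum_const, card_range, nsmul_eq_mul]
    push_cast
    exact le_rfl
  have hG : 0 ≤ Lc x s - Lc x (s / 8) := by
    have := Lc_mono (x := x) (r := s / 8) (r' := s) (by positivity) (by linarith)
    linarith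
  calc ∑ z, |ker s Q x z - ker s Q y z|
      ≤ (1 / (Q : ℝ)) * (2 * ((2 * q : ℝ) * (Lc x s - Lc x (s / 8)))) := by
        refine step1.trans ?_
        apply mul_le_mul_of_nonneg_left _ (by positivity)
        exact step2.trans (mul_le_mul_of_nonneg_left step3 (by norm_num))
    _ = (4 * q / Q) * (Lc x s - Lc x (s / 8)) := by ring
    _ ≤ 32 * t / s * (Lc x s - Lc x (s / 8)) := by
        apply mul_le_mul_of_nonneg_right _ hG
        rw [div_le_div_iff₀ hQ' hs]
        have h8 : (q : ℝ) * (s / (4 * Q)) ≤ 2 * t := hq2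
        have h9 : (q : ℝ) * s ≤ 8 * t * Q := by
          have := mul_le_mul_of_nonneg_right h8 (by positivity : (0:ℝ) ≤ 4 * Q)
          have h10 : (q : ℝ) * (s / (4 * Q)) * (4 * Q) = q * s := by field_simp
          rw [h10] at this
          linarith
        linarith

end Pool.Agent.Lib.MP_716709_gt.Upper
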